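import Pool.Agent.Helper21.BU.SELa

/-!
# Project BU (MP_71c16a_nt), block BU6, second part: the selection of the `n + 1` smallest forms
-/

set_option autoImplicit false

namespace Pool.Agent.SQ

open NumberField Filter Module MvPolynomial
open Pool.Agent.Helper64.Vojta (Pl nv sn above)
open Pool.Agent.V2
open Pool.Agent.Chart (fld dg crd hgt)

universe u

/-! ### forms -/

private theorem mem_mns_s99 {N d : ℕ} {μ : Fin (N + 1) →₀ ℕ} :
    μ ∈ Finset.finsuppAntidiag (Finset.univ : Finset (Fin (N + 1))) d ↔ μ.degree = d := by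
  rw [Finset.mem_finsuppAntidiag]
  constructor
  · rintro ⟨h, _⟩
    rw [← h, Finsupp.degree_eq_sum]
  · intro h
    refine ⟨?_, Finset.subset_univ _⟩
    rw [← h, Finsupp.degree_eq_sum]

private theorem hom_coeff_s99 {R : Type*} [CommSemiring R] {N d : ℕ} {p : MvPolynomial (Fin (N + 1)) R}
    (hp : p.IsHomogeneous d) {μ : Fin (N + 1) →₀ ℕ} (h : coeff μ p ≠ 0) : μ.degree = d := by
  have h1 := hp h
  rw [Finsupp.degree_eq_weight_one]
  exact h1

private theorem coeff_sum_s99 {R : Type*} [CommSemiring R] {N d : ℕ} (x : Mns N d → R) (ν : Fin (N + 1) →₀ ℕ) :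
    coeff ν (∑ μ : Mns N d, C (x μ) * monomial μ.1 1) = if h : ν.degree = d then x ⟨ν, mem_mns_s99.2 h⟩ else 0 := by
  classical
  rw [coeff_sum]
  simp only [coeff_C_mul, coeff_monomial, mul_ite, mul_one, mul_zero]
  by_cases h : ν.degree = d
  · rw [dif_pos h, Finset.sum_eq_single (⟨ν, mem_mns_s99.2 h⟩ : Mns N d)]
    · simp
    · intro μ _ hμ
      rw [if_neg]
      intro h1
      exact hμ (Subtype.ext h1)
    · intro h1
      exact absurd (Finset.mem_univ _) h1
  · rw [dif_neg h, Finset.sum_eq_zero]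
    intro μ _
    rw [if_neg]
    intro h1
    exact h (by rw [← h1]; exact mem_mns_s99.1 μ.2)

private theorem expand_s99 {R : Type*} [CommSemiring R] {N d : ℕ} {p : MvPolynomial (Fin (N + 1)) R}
    (hp : p.IsHomogeneous d) : p = ∑ μ : Mns N d, C (coeff μ.1 p) * monomial μ.1 1 := by
  ext ν
  rw [coeff_sum_s99]
  by_cases h : ν.degree = d
  · rw [dif_pos h]
  · rw [dif_neg h]
    by_contra h1
    exact h (hom_coeff_s99 hp h1)

private theorem tfrm_eq_s99 {R : Type*} [CommSemiring R] {N d q : ℕ} (c : Fin q × Mns N d → R) (i : Fin q) :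
    tfrm c i = ∑ μ : Mns N d, C (c (i, μ)) * monomial μ.1 1 := by
  unfold tfrm
  refine Finset.sum_congr rfl fun μ _ => ?_
  rw [C_mul_monomial, mul_one]

private theorem mono_hom_s99 {R : Type*} [CommSemiring R] {N d : ℕ} (μ : Mns N d) :
    (monomial μ.1 (1 : R) : MvPolynomial (Fin (N + 1)) R).IsHomogeneous d :=
  isHomogeneous_monomial _ (mem_mns_s99.1 μ.2)

private theorem tfrm_hom_s99 {R : Type*} [CommSemiring R] {N d q : ℕ} (c : Fin q × Mns N d → R) (i : Fin q) :
    (tfrm c i).IsHomogeneous d := by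
  rw [tfrm_eq_s99]
  refine IsHomogeneous.sum _ _ _ fun μ _ => ?_
  have h := (isHomogeneous_C (Fin (N + 1)) (c (i, μ))).mul (mono_hom_s99 (R := R) μ)
  rwa [zero_add] at h

/-! ### a membership in bounded degree -/

section

variable {k : Type*} [Field k] {N d m n : ℕ}

private theorem nul_vec99 (I : Ideal (MvPolynomial (Fin (N + 1)) k)) (hI : ∀ p ∈ I, ∀ m, homogeneousComponent m p ∈ I)
    (f : Fin (n + 1) → MvPolynomial (Fin (N + 1)) k) (hf : ∀ i, (f i).IsHomogeneous d) {s : ℕ}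
    (e : Fin s → Mns N (m + d) → k)
    (he : ∀ x : Mns N (m + d) → k, ∑ μ, C (x μ) * monomial μ.1 1 ∈ I → x ∈ Submodule.span k (Set.range e))
    (q : MvPolynomial (Fin (N + 1)) k) (hq : q ∈ I ⊔ Ideal.span (Set.range f)) :
    (fun μ : Mns N (m + d) => coeff μ.1 q) ∈ Submodule.span k (Set.range (Sum.elim e
      fun (p : Fin (n + 1) × Mns N m) (μ : Mns N (m + d)) => coeff μ.1 (monomial p.2.1 1 * f p.1))) := by
  classical
  obtain ⟨p, hp, r, hr, rfl⟩ := Submodule.mem_sup.1 hq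
  obtain ⟨c, rfl⟩ := Ideal.mem_span_range_iff_exists_fun.1 hr
  have h1 : (fun μ : Mns N (m + d) => coeff μ.1 (p + ∑ i, c i * f i)) =
      (fun μ : Mns N (m + d) => coeff μ.1 p) + ∑ i, ∑ ν ∈ (c i).support, coeff ν (c i) •
        fun μ : Mns N (m + d) => coeff μ.1 (monomial ν 1 * f i) := by
    funext μ
    rw [coeff_add, coeff_sum, Pi.add_apply, Finset.sum_apply]
    congr 1
    refine Finset.sum_congr rfl fun i _ => ?_
    rw [Finset.sum_apply]
    conv_lhs => rw [(c i).as_sum, Finset.sum_mul, coeff_sum]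
    refine Finset.sum_congr rfl fun ν _ => ?_
    rw [Pi.smul_apply, smul_eq_mul, ← coeff_C_mul, ← mul_assoc, C_mul_monomial, mul_one]
  rw [h1]
  refine Submodule.add_mem _ ?_ (Submodule.sum_mem _ fun i _ => Submodule.sum_mem _ fun ν _ => Submodule.smul_mem _ _ ?_)
  · have h2 : ∑ μ : Mns N (m + d), C (coeff μ.1 p) * monomial μ.1 1 = homogeneousComponent (m + d) p := by
      ext ν
      rw [coeff_sum_s99 (fun μ : Mns N (m + d) => coeff μ.1 p), coeff_homogeneousComponent]
      by_cases h : ν.degree = m + d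
      · rw [dif_pos h, if_pos h]
      · rw [dif_neg h, if_neg h]
    have h3 := he (fun μ => coeff μ.1 p) (by rw [h2]; exact hI p hp _)
    refine Submodule.span_mono ?_ h3
    rintro _ ⟨t, rfl⟩
    exact ⟨Sum.inl t, rfl⟩
  · by_cases h : ν.degree = m
    · exact Submodule.subset_span ⟨Sum.inr (i, ⟨ν, mem_mns_s99.2 h⟩), rfl⟩
    · have h2 : (fun μ : Mns N (m + d) => coeff μ.1 (monomial ν 1 * f i)) = 0 := by
        funext μ
        by_contra h3
        have h4 : (monomial ν (1 : k) * f i).IsHomogeneous (ν.degree + d) := (isHomogeneous_monomial _ rfl).mul (hf i)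
        have h5 := hom_coeff_s99 h4 h3
        have h6 := mem_mns_s99.1 μ.2
        omega
      rw [h2]
      exact Submodule.zero_mem _

end

/-! ### germs -/

private theorem trz_zero99 {k Λ : Type*} [Field k] [Field Λ] {U : Ultrafilter ℕ} (T : Trz k Λ U) :
    ∀ᶠ a in (U : Filter ℕ), T.rp 0 a = 0 := by
  filter_upwards [T.add 0 0] with a h
  rw [add_zero] at h
  exact left_eq_add.1 h

private theorem trz_sum99 {k Λ J : Type*} [Field k] [Field Λ] {U : Ultrafilter ℕ} (T : Trz k Λ U) (s : Finset J)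
    (z w : J → Λ) : ∀ᶠ a in (U : Filter ℕ), T.rp (∑ j ∈ s, z j * w j) a = ∑ j ∈ s, T.rp (z j) a * T.rp (w j) a := by
  classical
  induction s using Finset.induction_on with
  | empty => simpa using trz_zero99 T
  | insert j s hj ih =>
    filter_upwards [ih, T.mul (z j) (w j), T.add (z j * w j) (∑ j ∈ s, z j * w j)] with a h1 h2 h3
    rw [Finset.sum_insert hj, Finset.sum_insert hj, h3, h2, h1]

/-- a vector which lies in a span at almost all indices lies in the span of the germs -/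
private theorem span_tr99 {k Λ ι J : Type*} [Field k] [Field Λ] [Finite ι] [Fintype J] {U : Ultrafilter ℕ} (T : Trz k Λ U)
    (u : ι → J → Λ) (w : J → Λ) (ua : ℕ → ι → J → k) (wa : ℕ → J → k)
    (hu : ∀ i j, ∀ᶠ a in (U : Filter ℕ), T.rp (u i j) a = ua a i j)
    (hw : ∀ j, ∀ᶠ a in (U : Filter ℕ), T.rp (w j) a = wa a j)
    (h : ∀ᶠ a in (U : Filter ℕ), wa a ∈ Submodule.span k (Set.range (ua a))) :
    w ∈ Submodule.span Λ (Set.range u) := by
  classical
  by_contra hn
  obtain ⟨f, hf, hle⟩ := Submodule.exists_le_ker_of_notMem hn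
  obtain ⟨φ, hφ⟩ : ∃ φ : J → Λ, φ = fun j => f (Pi.single j 1) := ⟨_, rfl⟩
  have hf1 : ∀ x : J → Λ, f x = ∑ j, x j * φ j := by
    intro x
    have h1 : x = ∑ j, x j • (Pi.single j (1 : Λ) : J → Λ) := by
      funext i
      simp [Finset.sum_apply, Pi.single_apply]
    conv_lhs => rw [h1]
    rw [map_sum]
    refine Finset.sum_congr rfl fun j _ => ?_
    rw [map_smul, smul_eq_mul, hφ]
  have hu' : ∀ᶠ a in (U : Filter ℕ), ∀ i, ∑ j, ua a i j * T.rp (φ j) a = 0 := by
    rw [eventually_all]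
    intro i
    have h0 : ∑ j, u i j * φ j = 0 := by
      rw [← hf1]
      exact hle (Submodule.subset_span ⟨i, rfl⟩)
    filter_upwards [eventually_all.2 (hu i), trz_sum99 T Finset.univ (u i) φ, trz_zero99 T] with a h1 h2 h3
    rw [h0, h3] at h2
    rw [h2]
    exact Finset.sum_congr rfl fun j _ => by rw [h1 j]
  have hw' : ∀ᶠ a in (U : Filter ℕ), T.rp (f w) a ≠ 0 := by
    rw [Ultrafilter.eventually_not]
    intro h1
    refine hf (T.inj _ _ ?_)
    filter_upwards [h1, trz_zero99 T] with a h2 h3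
    rw [h2, h3]
  have hw2 := trz_sum99 T Finset.univ w φ
  rw [← hf1] at hw2
  obtain ⟨a, h1, h2, h3, h4, h5⟩ := (hu'.and (hw'.and (hw2.and ((eventually_all.2 hw).and h)))).exists
  refine h2 ?_
  rw [h3]
  let g : (J → k) →ₗ[k] k := ∑ j, T.rp (φ j) a • LinearMap.proj j
  have hg : ∀ x, g x = ∑ j, x j * T.rp (φ j) a := by
    intro x
    simp only [g, LinearMap.sum_apply, LinearMap.smul_apply, LinearMap.proj_apply, smul_eq_mul]
    exact Finset.sum_congr rfl fun j _ => mul_comm _ _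
  have h6 : Submodule.span k (Set.range (ua a)) ≤ LinearMap.ker g := by
    rw [Submodule.span_le]
    rintro _ ⟨i, rfl⟩
    rw [SetLike.mem_coe, LinearMap.mem_ker, hg]
    exact h1 i
  have h7 := h6 h5
  rw [LinearMap.mem_ker, hg] at h7
  rw [← h7]
  exact Finset.sum_congr rfl fun j _ => by rw [h4 j]

/-- one term of a sum is at most the sum -/
private theorem exists_le99 {k K J : Type*} [Field k] [Field K] [Algebra k K] {ω : K → ℝ} (h : RV k ω) (t : Finset J)
    (z : J → K) (h0 : ∑ j ∈ t, z j ≠ 0) : ∃ j ∈ t, z j ≠ 0 ∧ ω (z j) ≤ ω (∑ j ∈ t, z j) := by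
  classical
  induction t using Finset.induction_on with
  | empty => exact absurd (by simp) h0
  | insert a t ha ih =>
    rw [Finset.sum_insert ha] at h0 ⊢
    by_cases h1 : z a = 0
    · rw [h1, zero_add] at h0 ⊢
      obtain ⟨j, hj, h2⟩ := ih h0
      exact ⟨j, Finset.mem_insert_of_mem hj, h2⟩
    by_cases h2 : ∑ j ∈ t, z j = 0
    · exact ⟨a, Finset.mem_insert_self a t, h1, by rw [h2, add_zero]⟩
    obtain ⟨j, hj, h3, h4⟩ := ih h2
    have h5 := h.add (z a) (∑ j ∈ t, z j) h1 h2 h0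
    rcases le_total (ω (z a)) (ω (∑ j ∈ t, z j)) with h6 | h6
    · rw [min_eq_left h6] at h5
      exact ⟨a, Finset.mem_insert_self a t, h1, h5⟩
    · rw [min_eq_right h6] at h5
      exact ⟨j, Finset.mem_insert_of_mem hj, h3, h4.trans h5⟩

private theorem rv_pow99 {k K : Type*} [Field k] [Field K] [Algebra k K] {ω : K → ℝ} (h : RV k ω) {x : K} (hx : x ≠ 0)
    (n : ℕ) : ω (x ^ n) = n * ω x := by
  induction n with
  | zero =>
    have h1 := h.alg 1 one_ne_zero
    rw [map_one] at h1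
    rw [pow_zero, h1, Nat.cast_zero, zero_mul]
  | succ n ih =>
    rw [pow_succ, h.mul _ _ (pow_ne_zero n hx) hx, ih]
    push_cast
    ring

/-- the largest `n` values -/
private theorem top99 {q : ℕ} (A : Fin q → ℝ) (T : Finset (Fin q)) {n : ℕ} (hn : n ≤ T.card) :
    ∃ J ⊆ T, J.card = n ∧ ∀ i ∈ J, ∀ j ∈ T, j ∉ J → A j ≤ A i := by
  classical
  have hne : (T.powersetCard n).Nonempty := Finset.powersetCard_nonempty.2 hn
  obtain ⟨J, hJ, hmax⟩ := Finset.exists_max_image _ (fun J : Finset (Fin q) => ∑ i ∈ J, A i) hne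
  rw [Finset.mem_powersetCard] at hJ
  refine ⟨J, hJ.1, hJ.2, fun i hi j hjT hj => ?_⟩
  have h1 : j ∉ J.erase i := fun h => hj (Finset.mem_of_mem_erase h)
  have h2 := hmax (insert j (J.erase i)) (by
    rw [Finset.mem_powersetCard]
    refine ⟨Finset.insert_subset hjT ((Finset.erase_subset _ _).trans hJ.1), ?_⟩
    rw [Finset.card_insert_of_notMem h1, Finset.card_erase_of_mem hi]
    have : 0 < J.card := Finset.card_pos.2 ⟨i, hi⟩
    omega)
  rw [Finset.sum_insert h1] at h2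
  have h3 := Finset.add_sum_erase J A hi
  linarith

section

variable {k : Type u} [Field k] [NumberField k] {G : Type} [Group G] [Fintype G] {D : SqG k G} (F : GFG D)

variable {N d q : ℕ} (y : ∀ a, Fin (N + 1) → D.L a) (ξ : Fin (N + 1) → F.K)
  (hξ : ∀ j, ∀ᶠ a in (D.U : Filter ℕ), F.rp (ξ j) a = y a j)

include hξ

private theorem aeval_zero99 (p : MvPolynomial (Fin (N + 1)) k) (hp : ∀ a, aeval (y a) p = 0) : aeval ξ p = 0 := by
  have h : ∀ p : MvPolynomial (Fin (N + 1)) k, ∀ᶠ a in (D.U : Filter ℕ), F.rp (aeval ξ p) a = aeval (y a) p := by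
    intro P
    induction P using MvPolynomial.induction_on with
    | C r =>
      filter_upwards [F.rp_alg r] with a h1
      rw [aeval_C, aeval_C, h1]
    | add p q hp hq =>
      filter_upwards [hp, hq, F.rp_add (aeval ξ p) (aeval ξ q)] with a h1 h2 h3
      rw [map_add, map_add, h3, h1, h2]
    | mul_X p j hp =>
      filter_upwards [hp, hξ j, F.rp_mul (aeval ξ p) (ξ j)] with a h1 h2 h3
      rw [map_mul, map_mul, aeval_X, aeval_X, h3, h1, h2]
  refine F.rp_inj _ _ ?_
  have h3 := F.rp_alg 0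
  simp only [map_zero] at h3
  filter_upwards [h p, h3] with a h1 h2
  rw [h1, h2, hp a]

/-- one of `n + 1` forms without common zero is not small -/
private theorem min99 (hy : Ptg D y) {n M : ℕ} (I : Ideal (MvPolynomial (Fin (N + 1)) k))
    (hI : ∀ p ∈ I, ∀ m, homogeneousComponent m p ∈ I) (hyI : ∀ a, ∀ p ∈ I, aeval (y a) p = 0)
    (cs : Fin q × Mns N d → slk F) (c : ℕ → Fin q × Mns N d → k)
    (hc : ∀ t, ∀ᶠ a in (D.U : Filter ℕ), (trs F).rp (cs t) a = c a t) (j : Fin (n + 1) → Fin q)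
    (hM : ∀ᶠ a in (D.U : Filter ℕ),
      ∀ l, (X l : MvPolynomial (Fin (N + 1)) k) ^ M ∈ I ⊔ Ideal.span (Set.range fun i => tfrm (c a) (j i)))
    (hne : ∀ l, aeval ξ (tfrm cs (j l)) ≠ 0) (v : Pl k) (g : G) :
    ∃ l, omg F v (F.s g (aeval ξ (tfrm cs (j l)))) + d * cg D y v g ≤ 0 := by
  classical
  have hω : RV (slk F) fun x => omg F v (ss F g x) := (omg_RVs F v).comp (ss F g)
  -- the coordinate of maximal size
  obtain ⟨i0, hi0, hi1⟩ : ∃ i0, ξ i0 ≠ 0 ∧ omg F v (ss F g (ξ i0)) ≤ -cg D y v g := by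
    obtain ⟨z, hz, hz0, hz1⟩ := omgs_attained F y hy ξ hξ v g
    obtain ⟨m, rfl⟩ := (Submodule.mem_span_range_iff_exists_fun (slk F)).1 hz
    obtain ⟨i, -, h1, h2⟩ := exists_le99 hω Finset.univ (fun i => m i • ξ i) hz0
    have h3 : m i ≠ 0 := fun h => h1 (by show m i • ξ i = 0; rw [h, zero_smul])
    have h4 : ξ i ≠ 0 := fun h => h1 (by show m i • ξ i = 0; rw [h, smul_zero])
    refine ⟨i, h4, ?_⟩
    have h5 : omg F v (ss F g (m i • ξ i)) = omg F v (ss F g (ξ i)) := hω.smul (m i) (ξ i) h3 h4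
    have h6 : omg F v (ss F g (m i • ξ i)) ≤ omg F v (ss F g (∑ i, m i • ξ i)) := h2
    linarith
  -- the forms of degree `M + d` in `I`
  let pol : (Mns N (M + d) → k) →ₗ[k] MvPolynomial (Fin (N + 1)) k :=
    { toFun := fun x => ∑ μ, C (x μ) * monomial μ.1 1
      map_add' := fun x x' => by
        rw [← Finset.sum_add_distrib]
        refine Finset.sum_congr rfl fun μ _ => ?_
        rw [Pi.add_apply, C_add, add_mul]
      map_smul' := fun r x => by
        rw [Finset.smul_sum]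
        refine Finset.sum_congr rfl fun μ _ => ?_
        rw [Pi.smul_apply, smul_eq_mul, C_mul, mul_assoc, RingHom.id_apply, C_mul'] }
  obtain ⟨EI, hEI⟩ : ∃ EI : Submodule k (Mns N (M + d) → k), EI = (I.restrictScalars k).comap pol := ⟨_, rfl⟩
  have hEm : ∀ x : Mns N (M + d) → k, x ∈ EI ↔ ∑ μ, C (x μ) * monomial μ.1 1 ∈ I := by
    intro x
    rw [hEI]
    rfl
  let b := Module.finBasis k EI
  obtain ⟨e, he⟩ : ∃ e : Fin (finrank k EI) → Mns N (M + d) → k, e = fun t => (b t : Mns N (M + d) → k) := ⟨_, rfl⟩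
  have he1 : ∀ t, ∑ μ, C (e t μ) * monomial μ.1 1 ∈ I := by
    intro t
    rw [← hEm, he]
    exact (b t).2
  have he2 : ∀ x : Mns N (M + d) → k, ∑ μ, C (x μ) * monomial μ.1 1 ∈ I → x ∈ Submodule.span k (Set.range e) := by
    intro x hx
    rw [← hEm] at hx
    have h1 := congrArg (EI.subtype) (b.sum_repr ⟨x, hx⟩)
    rw [map_sum] at h1
    have h2 : x = ∑ t, b.repr ⟨x, hx⟩ t • e t := by
      refine h1.symm.trans (Finset.sum_congr rfl fun t _ => ?_)
      rw [map_smul, he]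
      rfl
    rw [h2]
    exact Submodule.sum_mem _ fun t _ => Submodule.smul_mem _ _ (Submodule.subset_span ⟨t, rfl⟩)
  -- the vectors
  let u : Fin (finrank k EI) ⊕ (Fin (n + 1) × Mns N M) → Mns N (M + d) → slk F :=
    Sum.elim (fun t μ => algebraMap k (slk F) (e t μ)) fun p μ => coeff μ.1 (monomial p.2.1 1 * tfrm cs (j p.1))
  let ua : ℕ → Fin (finrank k EI) ⊕ (Fin (n + 1) × Mns N M) → Mns N (M + d) → k := fun a =>
    Sum.elim e fun p μ => coeff μ.1 (monomial p.2.1 1 * tfrm (c a) (j p.1))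
  have halg : ∀ r : k, ∀ᶠ a in (D.U : Filter ℕ), (trs F).rp (algebraMap k (slk F) r) a = r := fun r =>
    trs_eq F (algebraMap k (slk F) r) (fun _ => r) (F.rp_alg r)
  have hspan := span_tr99 (trs F) u (fun μ : Mns N (M + d) => algebraMap k (slk F) (coeff μ.1 (X i0 ^ (M + d) :
    MvPolynomial (Fin (N + 1)) k))) ua (fun _ μ => coeff μ.1 (X i0 ^ (M + d) : MvPolynomial (Fin (N + 1)) k)) (by
      rintro (t | p) μ
      · exact halg _
      · show ∀ᶠ a in (D.U : Filter ℕ), (trs F).rp (coeff μ.1 (monomial p.2.1 1 * tfrm cs (j p.1))) a =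
          coeff μ.1 (monomial p.2.1 1 * tfrm (c a) (j p.1))
        simp only [coeff_monomial_mul', one_mul]
        by_cases h1 : p.2.1 ≤ μ.1
        · simp only [if_pos h1, tfrm_eq_s99]
          have h2 : ∀ a, coeff (μ.1 - p.2.1) (∑ μ : Mns N d, C (c a (j p.1, μ)) * monomial μ.1 1) =
              if h : (μ.1 - p.2.1).degree = d then c a (j p.1, ⟨μ.1 - p.2.1, mem_mns_s99.2 h⟩) else 0 := fun a =>
            coeff_sum_s99 (fun μ => c a (j p.1, μ)) _
          have h3 : coeff (μ.1 - p.2.1) (∑ μ : Mns N d, C (cs (j p.1, μ)) * monomial μ.1 1) =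
              if h : (μ.1 - p.2.1).degree = d then cs (j p.1, ⟨μ.1 - p.2.1, mem_mns_s99.2 h⟩) else 0 :=
            coeff_sum_s99 (fun μ => cs (j p.1, μ)) _
          simp only [h2, h3]
          by_cases h4 : (μ.1 - p.2.1).degree = d
          · simp only [dif_pos h4]
            exact hc _
          · simp only [dif_neg h4]
            exact trz_zero99 (trs F)
        · simp only [if_neg h1]
          exact trz_zero99 (trs F)) (fun μ => halg _) (by
      filter_upwards [hM] with a ha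
      refine nul_vec99 I hI (fun i => tfrm (c a) (j i)) (fun i => tfrm_hom_s99 _ _) e he2 _ ?_
      rw [pow_add]
      exact Ideal.mul_mem_right _ _ (ha i0))
  obtain ⟨w, hw⟩ := (Submodule.mem_span_range_iff_exists_fun (slk F)).1 hspan
  -- evaluation
  let ev : (Mns N (M + d) → slk F) →ₗ[slk F] F.K :=
    { toFun := fun x => ∑ μ, x μ • aeval ξ (monomial μ.1 (1 : slk F))
      map_add' := fun x x' => by
        rw [← Finset.sum_add_distrib]
        exact Finset.sum_congr rfl fun μ _ => by rw [Pi.add_apply, add_smul]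
      map_smul' := fun r x => by
        rw [Finset.smul_sum]
        exact Finset.sum_congr rfl fun μ _ => by rw [Pi.smul_apply, smul_eq_mul, mul_smul, RingHom.id_apply] }
  have hev : ∀ p : MvPolynomial (Fin (N + 1)) (slk F), p.IsHomogeneous (M + d) →
      ev (fun μ => coeff μ.1 p) = aeval ξ p := by
    intro p hp
    conv_rhs => rw [expand_s99 hp, map_sum]
    refine Finset.sum_congr rfl fun μ _ => ?_
    rw [map_mul, aeval_C, Algebra.smul_def]
  have hevk : ∀ x : Mns N (M + d) → k, ev (fun μ => algebraMap k (slk F) (x μ)) = aeval ξ (∑ μ, C (x μ) * monomial μ.1 (1 : k)) := by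
    intro x
    rw [map_sum]
    refine Finset.sum_congr rfl fun μ _ => ?_
    rw [map_mul, aeval_C, algebraMap_smul, Algebra.smul_def, aeval_monomial, aeval_monomial, map_one, map_one]
  have h1 : ev (fun μ : Mns N (M + d) => algebraMap k (slk F) (coeff μ.1 (X i0 ^ (M + d) :
      MvPolynomial (Fin (N + 1)) k))) = ξ i0 ^ (M + d) := by
    have hX : (X i0 ^ (M + d) : MvPolynomial (Fin (N + 1)) k).IsHomogeneous (M + d) := by
      have := (isHomogeneous_X k i0).pow (M + d)
      rwa [one_mul] at this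
    rw [hevk, ← expand_s99 hX, map_pow, aeval_X]
  have h2 : ∀ t, ev (u (Sum.inl t)) = 0 := by
    intro t
    have h3 : ev (u (Sum.inl t)) = aeval ξ (∑ μ, C (e t μ) * monomial μ.1 (1 : k)) := hevk (e t)
    rw [h3]
    exact aeval_zero99 F y ξ hξ _ fun a => hyI a _ (he1 t)
  have h3 : ∀ p : Fin (n + 1) × Mns N M, ev (u (Sum.inr p)) =
      aeval ξ (monomial p.2.1 (1 : slk F)) * aeval ξ (tfrm cs (j p.1)) := by
    intro p
    rw [← map_mul]
    exact hev _ ((mono_hom_s99 p.2).mul (tfrm_hom_s99 cs (j p.1)))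
  have h4 : ξ i0 ^ (M + d) = ∑ p : Fin (n + 1) × Mns N M, w (Sum.inr p) •
      (aeval ξ (monomial p.2.1 (1 : slk F)) * aeval ξ (tfrm cs (j p.1))) := by
    have h5 := congrArg ev hw
    rw [h1, map_sum, Fintype.sum_sum_type] at h5
    rw [← h5]
    have h6 : ∑ t, ev (w (Sum.inl t) • u (Sum.inl t)) = 0 := by
      refine Finset.sum_eq_zero fun t _ => ?_
      rw [map_smul, h2 t, smul_zero]
    rw [h6, zero_add]
    exact Finset.sum_congr rfl fun p _ => by rw [map_smul, h3 p]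
  have h5 : ∑ p : Fin (n + 1) × Mns N M, w (Sum.inr p) •
      (aeval ξ (monomial p.2.1 (1 : slk F)) * aeval ξ (tfrm cs (j p.1))) ≠ 0 := by
    rw [← h4]
    exact pow_ne_zero _ hi0
  obtain ⟨p, -, h6, h7⟩ := exists_le99 hω Finset.univ (fun p : Fin (n + 1) × Mns N M => w (Sum.inr p) •
      (aeval ξ (monomial p.2.1 (1 : slk F)) * aeval ξ (tfrm cs (j p.1)))) h5
  rw [← h4] at h7
  have h8 : omg F v (ss F g (ξ i0 ^ (M + d))) = ((M + d : ℕ) : ℝ) * omg F v (ss F g (ξ i0)) := rv_pow99 hω hi0 (M + d)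
  have h9 : w (Sum.inr p) ≠ 0 := fun h => h6 (by
    show w (Sum.inr p) • (aeval ξ (monomial p.2.1 (1 : slk F)) * aeval ξ (tfrm cs (j p.1))) = 0
    rw [h, zero_smul])
  have h10 : aeval ξ (monomial p.2.1 (1 : slk F)) ≠ 0 := fun h => h6 (by
    show w (Sum.inr p) • (aeval ξ (monomial p.2.1 (1 : slk F)) * aeval ξ (tfrm cs (j p.1))) = 0
    rw [h, zero_mul, smul_zero])
  have h11 : omg F v (ss F g (w (Sum.inr p) • (aeval ξ (monomial p.2.1 (1 : slk F)) * aeval ξ (tfrm cs (j p.1))))) =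
      omg F v (ss F g (aeval ξ (monomial p.2.1 (1 : slk F)))) + omg F v (ss F g (aeval ξ (tfrm cs (j p.1)))) := by
    rw [hω.smul _ _ h9 (mul_ne_zero h10 (hne p.1))]
    exact hω.mul _ _ h10 (hne p.1)
  have h12 : 0 ≤ omg F v (F.s g (aeval ξ (monomial p.2.1 (1 : slk F)))) + M * cg D y v g :=
    pow_nonneg_s F y ξ hξ hy M v g _ (aeval_mem_pow F y ξ hξ _ (mono_hom_s99 p.2)) h10
  refine ⟨p.1, ?_⟩
  have h13 : omg F v (ss F g (w (Sum.inr p) • (aeval ξ (monomial p.2.1 (1 : slk F)) * aeval ξ (tfrm cs (j p.1))))) ≤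
      omg F v (ss F g (ξ i0 ^ (M + d))) := h7
  rw [h11, h8] at h13
  have h14 : ((M + d : ℕ) : ℝ) * omg F v (ss F g (ξ i0)) ≤ ((M + d : ℕ) : ℝ) * -cg D y v g :=
    mul_le_mul_of_nonneg_left hi1 (Nat.cast_nonneg _)
  rw [ss_apply, ss_apply, ss_apply] at h13
  rw [ss_apply] at h14
  push_cast at h13 h14
  nlinarith

/-- the selection -/
theorem sel_s (hy : Ptg D y) {n M : ℕ} (I : Ideal (MvPolynomial (Fin (N + 1)) k))
    (hI : ∀ p ∈ I, ∀ m, homogeneousComponent m p ∈ I) (hyI : ∀ a, ∀ p ∈ I, aeval (y a) p = 0)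
    (cs : Fin q × Mns N d → slk F) (c : ℕ → Fin q × Mns N d → k)
    (hc : ∀ t, ∀ᶠ a in (D.U : Filter ℕ), (trs F).rp (cs t) a = c a t) (T : Finset (Fin q)) (hT : n + 1 ≤ T.card)
    (hM : ∀ᶠ a in (D.U : Filter ℕ), ∀ j : Fin (n + 1) → Fin q, Function.Injective j → (∀ l, j l ∈ T) →
      ∀ l, (X l : MvPolynomial (Fin (N + 1)) k) ^ M ∈ I ⊔ Ideal.span (Set.range fun i => tfrm (c a) (j i)))
    (hne : ∀ i ∈ T, aeval ξ (tfrm cs i) ≠ 0) (v : Pl k) (g : G) :
    ∃ j : Fin (n + 1) → Fin q, Function.Injective j ∧ (∀ l, j l ∈ T) ∧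
      ∑ i ∈ T, (omg F v (F.s g (aeval ξ (tfrm cs i))) + d * cg D y v g) =
        ∑ l, (omg F v (F.s g (aeval ξ (tfrm cs (j l)))) + d * cg D y v g) := by
  classical
  obtain ⟨L, hL⟩ : ∃ L : Fin q → ℝ, L = fun i => omg F v (F.s g (aeval ξ (tfrm cs i))) + d * cg D y v g := ⟨_, rfl⟩
  have hL0 : ∀ i ∈ T, 0 ≤ L i := by
    intro i hi
    rw [hL]
    exact pow_nonneg_s F y ξ hξ hy d v g _ (aeval_mem_pow F y ξ hξ _ (tfrm_hom_s99 cs i)) (hne i hi)
  obtain ⟨J, hJT, hJc, hJ⟩ := top99 L T hT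
  let j : Fin (n + 1) → Fin q := fun l => J.orderEmbOfFin hJc l
  have hj : Function.Injective j := (J.orderEmbOfFin hJc).injective
  have hjJ : ∀ l, j l ∈ J := fun l => Finset.orderEmbOfFin_mem J hJc l
  have him : Finset.univ.image j = J := by
    ext i
    rw [Finset.mem_image]
    constructor
    · rintro ⟨l, -, rfl⟩
      exact hjJ l
    · intro hi
      have h1 : i ∈ Set.range (J.orderEmbOfFin hJc) := by
        rw [Finset.range_orderEmbOfFin]
        exact hi
      obtain ⟨l, hl⟩ := h1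
      exact ⟨l, Finset.mem_univ _, hl⟩
  obtain ⟨l0, hl0⟩ := min99 F y ξ hξ hy I hI hyI cs c hc j (by
    filter_upwards [hM] with a ha
    exact ha j hj fun l => hJT (hjJ l)) (fun l => hne _ (hJT (hjJ l))) v g
  have h2 : L (j l0) ≤ 0 := by
    rw [hL]
    exact hl0
  have h3 : ∀ i ∈ T \ J, L i = 0 := by
    intro i hi
    rw [Finset.mem_sdiff] at hi
    exact le_antisymm ((hJ _ (hjJ l0) i hi.1 hi.2).trans h2) (hL0 i hi.1)
  refine ⟨j, hj, fun l => hJT (hjJ l), ?_⟩
  have h4 : ∑ i ∈ T, L i = ∑ l, L (j l) := by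
    rw [← Finset.sum_sdiff hJT, Finset.sum_eq_zero h3, zero_add, ← him, Finset.sum_image fun l _ l' _ h => hj h]
  rw [hL] at h4
  exact h4

end

end Pool.Agent.SQ
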